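import Pool.Agent.MBS.Main
import Pool.Agent.MBS.Cof

/-!
# A projectional skeleton which is compatible with no Markushevich basis

The space is the real or complex `ℓ₁(ω₂)`. It has a projectional skeleton with projections of norm at most one such
that for every Markushevich basis of the space the set `H` of its vectors with zero

* is not closed in the weak topology of the induced subspace,
* is not mapped into itself by the projections of any cofinal set of indices closed under suprema of increasing
  sequences,
* is not monotonically Sokolov in the weak topology of the induced subspace.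

Index set: countable `N ⊆ ω₂` which contain the ladder of each of its points whose ladder is countable and are closed
under the function `b` of the additivity of the walk; `P N` maps the unit vector at `g` to `2 ^ (-a)` times the unit
vector at `r`, the least element of `N` above or at `g`, where `a` is the number of steps of the walk from `r` to `g`
along the ladders of order type at most `ω₁`.
-/

set_option autoImplicit false

universe u

namespace Pool.Agent.Results.MP_b0f6ab_an.OmegaTwo

open MBS

/-- the well-ordered set of order type `ω₂` -/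
abbrev Om2 : Type := (Cardinal.ord (Cardinal.aleph 2)).ToType

/-- the Banach space `ℓ₁(ω₂)` -/
abbrev Ell (𝕜 : Type) [RCLike 𝕜] : Type := lp (fun _ : Om2 => 𝕜) 1

theorem result (𝕜 : Type) [RCLike 𝕜] :
    ∃ (Γ : Type) (_ : PartialOrder Γ) (P : Γ → Ell 𝕜 →L[𝕜] Ell 𝕜), ProjSkel P ∧ (∀ s, ‖P s‖ ≤ 1) ∧
      ∀ (Λ : Type u) (x : Λ → Ell 𝕜) (x' : Λ → Ell 𝕜 →L[𝕜] 𝕜),
        MBasis x x' → ¬ GoodA P (hull x) ∧ ¬ GoodB P (hull x) ∧ ¬ GoodC P (hull x) := by
  obtain ⟨C, hC⟩ := exists_lad two_of_ord
  obtain ⟨b, hb⟩ := exists_bad hC
  have hP := skel (𝕜 := 𝕜) hC hb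
  refine ⟨{N : Set Om2 // Gam C b N}, inferInstance, fun N => PP 𝕜 C N.1, hP,
    fun s => norm_PP s.1, fun Λ x x' hx => ?_⟩
  have key : ¬ Cof (fun N : {N : Set Om2 // Gam C b N} => PP 𝕜 C N.1) (hull x) :=
    fun h => no_cof two_of_ord hC hx h
  refine ⟨fun h => key (h.cof hP), fun h => key h.cof, fun h => key (h.cof hP fun s f => ?_)⟩
  exact (ContinuousLinearMap.le_opNorm _ _).trans (mul_le_of_le_one_left (norm_nonneg _) (norm_PP s.1))

end Pool.Agent.Results.MP_b0f6ab_an.OmegaTwo
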